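import Pool.Agent.H74.G.R_seed8.Y504.CO.Stm

/-! Project CO: uniform lower bound for sparse patterns (LB), by helper832. -/

set_option autoImplicit false

open Filter Set Metric Topology

namespace Pool.Agent.Y832.CO.LB

open Pool.Agent.H718R2.G Pool.Agent.Y504.CO

theorem main : S_LB := by
  intro E _ _ _ B A hB1 hB2 hNA hNB
  by_contra hcon
  push Not at hcon
  -- normalised counterexamples
  have hex : ∀ k : ℕ, ∃ (N : ℕ) (S : Set ℤ) (D : ℤ → E →L[ℝ] E) (u : ℤ → E), k ≤ N ∧
      (∀ i, (∀ s ∈ S, (N : ℤ) < |i - s|) → D i = A) ∧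
      (∀ i, ∀ s ∈ S, |i - s| ≤ (N : ℤ) → D i = B (i - s)) ∧ (∀ j, ‖u j‖ ≤ 1) ∧ 1 / 2 ≤ ‖u 0‖ ∧
      ∀ j, ‖u (j + 1) - D j (u j)‖ ≤ 1 / ((k : ℝ) + 1) := by
    intro k
    obtain ⟨N, hkN, S, D, hD1, hD2, v, ⟨C, hC⟩, δ, hδ, i0, hi0⟩ :=
      hcon (1 / ((k : ℝ) + 1)) (by positivity) k
    have hδ0 : 0 ≤ δ := (norm_nonneg _).trans (hδ 0)
    have hbdd : BddAbove (range fun i => ‖v i‖) := ⟨C, by rintro _ ⟨i, rfl⟩; exact hC i⟩
    set M : ℝ := ⨆ i, ‖v i‖ with hM
    have hleM : ∀ i, ‖v i‖ ≤ M := fun i => le_ciSup hbdd i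
    have hv0 : 0 < ‖v i0‖ := by
      by_contra h
      have h1 : ‖v i0‖ = 0 := le_antisymm (not_lt.1 h) (norm_nonneg _)
      rw [h1, mul_zero] at hi0
      linarith
    have hM0 : 0 < M := hv0.trans_le (hleM i0)
    obtain ⟨i1, hi1⟩ : ∃ i, M / 2 < ‖v i‖ := exists_lt_of_lt_ciSup (by linarith)
    refine ⟨N, {s | i1 + s ∈ S}, fun j => D (i1 + j), fun j => M⁻¹ • v (i1 + j), hkN, ?_, ?_, ?_,
      ?_, ?_⟩
    · intro i h
      apply hD1
      intro s hs
      have h1 := h (s - i1) (by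
        change i1 + (s - i1) ∈ S
        rwa [add_sub_cancel])
      have h2 : i - (s - i1) = i1 + i - s := by ring
      rwa [h2] at h1
    · intro i s hs h
      have h1 := hD2 (i1 + i) (i1 + s) hs (by
        have h2 : i1 + i - (i1 + s) = i - s := by ring
        rwa [h2])
      have h2 : i1 + i - (i1 + s) = i - s := by ring
      rwa [h2] at h1
    · intro j
      rw [norm_smul, norm_inv, Real.norm_of_nonneg hM0.le, inv_mul_le_iff₀ hM0, mul_one]
      exact hleM _
    · simp only [add_zero]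
      rw [norm_smul, norm_inv, Real.norm_of_nonneg hM0.le, le_inv_mul_iff₀ hM0]
      linarith
    · intro j
      have h1 : M⁻¹ • v (i1 + (j + 1)) - D (i1 + j) (M⁻¹ • v (i1 + j)) =
          M⁻¹ • (v (i1 + j + 1) - D (i1 + j) (v (i1 + j))) := by
        rw [map_smul, smul_sub, add_assoc]
      rw [h1, norm_smul, norm_inv, Real.norm_of_nonneg hM0.le, inv_mul_le_iff₀ hM0]
      calc _ ≤ δ := hδ _
        _ ≤ 1 / ((k : ℝ) + 1) * ‖v i0‖ := hi0.le
        _ ≤ 1 / ((k : ℝ) + 1) * M := by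
            apply mul_le_mul_of_nonneg_left (hleM i0) (by positivity)
        _ = M * (1 / ((k : ℝ) + 1)) := mul_comm _ _
  choose N S D u hN hD1 hD2 hu1 hu2 hu3 using hex
  let F : Ultrafilter ℕ := hyperfilter ℕ
  have hF : (F : Filter ℕ) ≤ atTop := by
    rw [← Nat.cofinite_eq_atTop]
    exact hyperfilter_le_cofinite
  -- the limit
  have hlim : ∀ j : ℤ, ∃ w : E, Tendsto (fun k => u k j) F (𝓝 w) := by
    intro j
    have : ProperSpace E := FiniteDimensional.proper ℝ E
    obtain ⟨w, -, hw⟩ := (isCompact_closedBall (0 : E) 1).ultrafilter_le_nhds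
      (F.map fun k => u k j) (by
        rw [le_principal_iff, Ultrafilter.mem_coe, Ultrafilter.mem_map]
        refine Filter.univ_mem' fun k => ?_
        rw [mem_preimage, mem_closedBall_zero_iff]
        exact hu1 k j)
    exact ⟨w, hw⟩
  choose w hw using hlim
  have hw1 : ∀ j, ‖w j‖ ≤ 1 := fun j =>
    le_of_tendsto (hw j).norm (Eventually.of_forall fun k => hu1 k j)
  have hw0 : 1 / 2 ≤ ‖w 0‖ := ge_of_tendsto (hw 0).norm (Eventually.of_forall fun k => hu2 k)
  have key : ∀ (j : ℤ) (L : E →L[ℝ] E), Tendsto (fun k => D k j) F (𝓝 L) → w (j + 1) = L (w j) := by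
    intro j L hL
    have h1 : Tendsto (fun k => D k j (u k j)) F (𝓝 (L (w j))) := by
      have h0 := ((isBoundedBilinearMap_apply (𝕜 := ℝ) (E := E) (F := E)).continuous.tendsto
        (L, w j)).comp (hL.prodMk_nhds (hw j))
      exact h0
    have h2 : Tendsto (fun k => u k (j + 1) - D k j (u k j)) F (𝓝 (w (j + 1) - L (w j))) :=
      (hw (j + 1)).sub h1
    have h3 : Tendsto (fun k => u k (j + 1) - D k j (u k j)) F (𝓝 0) := by
      rw [tendsto_zero_iff_norm_tendsto_zero]
      refine squeeze_zero (fun k => norm_nonneg _) (fun k => hu3 k j) ?_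
      exact tendsto_one_div_add_atTop_nhds_zero_nat.mono_left hF
    exact sub_eq_zero.1 (tendsto_nhds_unique h2 h3)
  have hne : w 0 ≠ 0 := by
    intro h
    rw [h, norm_zero] at hw0
    norm_num at hw0
  by_cases hcase : ∃ s : ℤ, ∀ᶠ k in (F : Filter ℕ), s ∈ S k
  · obtain ⟨s, hs⟩ := hcase
    have hstep : ∀ j : ℤ, w (j + 1) = B (j - s) (w j) := by
      intro j
      apply key
      have h1 : ∀ᶠ k : ℕ in (F : Filter ℕ), |j - s| ≤ (N k : ℤ) := by
        apply hF
        filter_upwards [eventually_ge_atTop (|j - s|).toNat] with k hk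
        have := hN k
        omega
      refine tendsto_const_nhds.congr' ?_
      filter_upwards [hs, h1] with k hk1 hk2
      exact (hD2 k j s hk1 hk2).symm
    have h0 := hNB (fun i => w (i + s)) ⟨1, fun i => hw1 _⟩ (fun i => by
      have := hstep (i + s)
      rw [add_sub_cancel_right] at this
      rw [← this]
      congr 1
      ring) (-s)
    simp only [neg_add_cancel] at h0
    exact hne h0
  · push Not at hcase
    have hcase' : ∀ s : ℤ, ∀ᶠ k in (F : Filter ℕ), s ∉ S k := by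
      intro s
      exact hcase s
    have hstep : ∀ j : ℤ, w (j + 1) = A (w j) := by
      intro j
      apply key
      rw [Metric.tendsto_nhds]
      intro ε hε
      obtain ⟨R1, hR1⟩ := eventually_atTop.1 ((Metric.tendsto_nhds.1 hB1) ε hε)
      obtain ⟨R2, hR2⟩ := eventually_atBot.1 ((Metric.tendsto_nhds.1 hB2) ε hε)
      have hfin : ∀ᶠ k in (F : Filter ℕ), ∀ s ∈ Finset.Icc (j - R1) (j - R2), s ∉ S k :=
        (Finset.eventually_all _).2 fun s _ => hcase' s
      filter_upwards [hfin] with k hk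
      by_cases h : ∃ s ∈ S k, |j - s| ≤ (N k : ℤ)
      · obtain ⟨s, hs, hsN⟩ := h
        rw [hD2 k j s hs hsN]
        by_cases h1 : R1 ≤ j - s
        · exact hR1 _ h1
        · by_cases h2 : j - s ≤ R2
          · exact hR2 _ h2
          · exfalso
            exact hk s (Finset.mem_Icc.2 ⟨by omega, by omega⟩) hs
      · push Not at h
        rw [hD1 k j h, dist_self]
        exact hε
    exact hne (hNA w ⟨1, hw1⟩ hstep 0)

end Pool.Agent.Y832.CO.LB
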