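import Pool.Agent.H74.G.R_seed8.Y504.CO.StmF

/-! Project CO: linear perturbations near a point (LP), by helper832, on top of files of helper80. -/

set_option autoImplicit false

open scoped Manifold ContDiff Topology NNReal
open Filter Set Metric

universe u

namespace Pool.Agent.Y832.CO.LP

open Pool.Agent.H718R2.G Pool.Agent.W564.SC Pool.Agent.TH290.CL Pool.Agent.TH80.CLX
  Pool.Agent.TH80.OMS Pool.Agent.Y504.CO

/-- good charts which are affine rescalings of a given chart -/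
theorem aff_chart {n : ℕ} {N : Type u} [TopologicalSpace N] [ChartedSpace (V n) N]
    [IsManifold (𝓡 n) ∞ N] (ψ : OpenPartialHomeomorph N (V n))
    (hψ : ψ ∈ IsManifold.maximalAtlas (𝓡 n) ∞ N)
    (z : N) (hzψ : z ∈ ψ.source) (O : Set N) (hO : IsOpen O) (hz : z ∈ O) :
    ∃ (χ : OpenPartialHomeomorph N (V n)) (ε : ℝ), 0 < ε ∧ GoodChart n N χ z ∧ χ.source ⊆ O ∧
      χ.source ⊆ ψ.source ∧ (∀ y, χ y = ε⁻¹ • (ψ y - ψ z)) ∧
      ∀ y ∈ ψ.source, ‖ψ y - ψ z‖ ≤ ε → y ∈ χ.source := by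
  obtain ⟨φ, hφ⟩ : ∃ φ : OpenPartialHomeomorph N (V n), φ = ψ.restr O := ⟨_, rfl⟩
  have hfun : ∀ y, φ y = ψ y := fun y => by rw [hφ]; rfl
  have hsymm : ∀ v, φ.symm v = ψ.symm v := fun v => by rw [hφ]; rfl
  have hsrc : φ.source = ψ.source ∩ O := by
    rw [hφ, OpenPartialHomeomorph.restr_source, hO.interior_eq]
  have hm : φ ∈ IsManifold.maximalAtlas (𝓡 n) ∞ N := by
    rw [hφ]
    exact restr_mem_maximalAtlas _ hψ hO
  have hs : z ∈ φ.source := by
    rw [hsrc]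
    exact ⟨hzψ, hz⟩
  have ht : φ z ∈ φ.target := φ.map_source hs
  obtain ⟨ε, hε, hball⟩ := Metric.nhds_basis_closedBall.mem_iff.mp (φ.open_target.mem_nhds ht)
  have h1 : ContDiff ℝ ∞ (fun v : V n => ε⁻¹ • (v - φ z)) := by fun_prop
  have h2 : ContDiff ℝ ∞ (fun w : V n => ε • w + φ z) := by fun_prop
  refine ⟨φ.transHomeomorph (Pool.Agent.W699.SC.hom (φ z) ε hε.ne'), ε, hε, ⟨?_, ?_, ?_, ?_⟩, ?_,
    ?_, ?_, ?_⟩
  · apply OpenPartialHomeomorph.mem_maximalAtlas_of_contMDiffOn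
    · have : ContMDiffOn (𝓡 n) (𝓡 n) ∞ ((fun v : V n => ε⁻¹ • (v - φ z)) ∘ φ) φ.source :=
        h1.contMDiff.comp_contMDiffOn (contMDiffOn_of_mem_maximalAtlas hm)
      exact this
    · have : ContMDiffOn (𝓡 n) (𝓡 n) ∞ (φ.symm ∘ (fun w : V n => ε • w + φ z))
          ((fun w : V n => ε • w + φ z) ⁻¹' φ.target) :=
        (contMDiffOn_symm_of_mem_maximalAtlas hm).comp h2.contMDiff.contMDiffOn (fun w hw => hw)
      exact this
  · exact hs
  · change ε⁻¹ • (φ z - φ z) = 0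
    rw [sub_self, smul_zero]
  · intro w hw
    change ε • w + φ z ∈ φ.target
    apply hball
    rw [mem_closedBall, dist_eq_norm, add_sub_cancel_right, norm_smul, Real.norm_eq_abs,
      abs_of_pos hε]
    rw [mem_closedBall, dist_zero_right] at hw
    nlinarith
  · change φ.source ⊆ O
    rw [hsrc]
    exact inter_subset_right
  · change φ.source ⊆ ψ.source
    rw [hsrc]
    exact inter_subset_left
  · intro y
    change ε⁻¹ • (φ y - φ z) = _
    rw [hfun, hfun]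
  · intro y hy hyz
    change y ∈ φ.source
    have h3 : ψ y ∈ φ.target := by
      apply hball
      rw [mem_closedBall, dist_eq_norm, hfun]
      exact hyz
    have h4 := φ.map_target h3
    rw [hsymm, ψ.left_inv hy] at h4
    exact h4

theorem main (hLF : S_LF) : S_LP.{u} := by
  intro n N _ _ _ _ _ r hr f U hU hf ψ hψ z hzψ O hO hz
  obtain ⟨χ, ε, hε, hg, hsO, hsψ, hχ, hnear⟩ := aff_chart ψ hψ z hzψ O hO hz
  have hrank : Module.finrank ℝ (V (n * n)) = Module.finrank ℝ (V n →L[ℝ] V n) := by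
    have h1 := LinearEquiv.finrank_eq
      (LinearMap.toContinuousLinearMap : (V n →ₗ[ℝ] V n) ≃ₗ[ℝ] (V n →L[ℝ] V n))
    rw [← h1, Module.finrank_linearMap]
    simp
  let 𝒮 : V (n * n) ≃L[ℝ] (V n →L[ℝ] V n) := ContinuousLinearEquiv.ofFinrankEq hrank
  obtain ⟨F, F', κ0, hκ0, hF, hlin⟩ := hLF (n * n) n (𝒮 : V (n * n) →L[ℝ] (V n →L[ℝ] V n))
  obtain ⟨Ψ, H, hfam, hH0, hH, hΨ0, hΨc, hΨi, hΨχ, hΨid⟩ := push_family r f hg hF
  obtain ⟨κ1, hκ1, hmem⟩ := fam_mem r hr H hfam z U hU (by rw [hH0]; exact hf)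
  have hpos : 0 < min κ0 κ1 := lt_min hκ0 hκ1
  set M : ℝ := ‖(𝒮.symm : (V n →L[ℝ] V n) →L[ℝ] V (n * n))‖ with hM
  have hM0 : 0 ≤ M := norm_nonneg (𝒮.symm : (V n →L[ℝ] V n) →L[ℝ] V (n * n))
  refine ⟨min κ0 κ1 / (M + 1), by positivity, ε / 4, by positivity, ?_⟩
  intro T hT
  obtain ⟨s, hsT⟩ : ∃ s, s = 𝒮.symm T := ⟨_, rfl⟩
  have hs : ‖s‖ < min κ0 κ1 := by
    have h1 : ‖s‖ ≤ M * ‖T‖ := by
      rw [hsT]
      exact ContinuousLinearMap.le_opNorm (𝒮.symm : (V n →L[ℝ] V n) →L[ℝ] V (n * n)) T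
    rw [lt_div_iff₀ (by positivity)] at hT
    have h2 := norm_nonneg T
    nlinarith
  let Φ : N ≃ₜ N := (H s).toHomeomorph.trans f.toHomeomorph.symm
  have hΦ : ∀ y, Φ y = Ψ s y := by
    intro y
    have h1 : Φ y = f.symm (H s y) := rfl
    rw [h1, hH]
    exact f.symm_apply_apply _
  refine ⟨Φ, H s, hmem s (hs.trans_le (min_le_right _ _)), ?_, ?_, ?_⟩
  · intro y
    rw [hΦ, hH]
  · intro y hy
    rw [hΦ]
    apply hΨid
    rintro ⟨v, hv, rfl⟩
    apply hy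
    apply hsO
    exact χ.map_target (hg.ball (closedBall_subset_closedBall (by norm_num) hv))
  · intro y hy hyz
    have hyχ : y ∈ χ.source := hnear y hy (by linarith)
    obtain ⟨h1, h2⟩ := hΨχ s y hyχ
    rw [hΦ]
    refine ⟨hsψ h1, ?_⟩
    have h3 : ‖χ y‖ < 1 / 4 := by
      rw [hχ, norm_smul, norm_inv, Real.norm_of_nonneg hε.le, inv_mul_lt_iff₀ hε]
      linarith
    rw [hlin s (χ y) (hs.trans_le (min_le_left _ _)) h3] at h2
    have h4 : (𝒮 : V (n * n) →L[ℝ] (V n →L[ℝ] V n)) s = T := by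
      rw [hsT]
      exact 𝒮.apply_symm_apply T
    rw [h4, hχ, hχ, map_smul, ← smul_add] at h2
    have h5 := smul_right_injective _ (inv_ne_zero hε.ne') h2
    have h6 : ψ (Ψ s y) - ψ z = ψ y - ψ z + T (ψ y - ψ z) := h5
    have h7 : ψ (Ψ s y) = (ψ (Ψ s y) - ψ z) + ψ z := by abel
    rw [h7, h6]
    abel

end Pool.Agent.Y832.CO.LP
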